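import Pool.Agent.V5helper1.FS.Stm

/-!
# Project FS, job CON: the construction of the set mapping
-/

set_option autoImplicit false

open Cardinal Set

namespace Pool.Agent.V5helper12.FS

open Pool.Agent.V5helper1.FS

/-- initial segments of `K` have cardinality at most `ℵ_ω` -/
theorem mk_Iio_le (α : K) : #(Iio α) ≤ ℵ_ Ordinal.omega0 := by
  have h : #(Iio α) < ℵ_ (Ordinal.omega0 + 1) := by simpa using mk_Iio_lt α
  exact Order.lt_succ_iff.1 (h.trans_eq (succ_aleph _).symm)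

theorem mk_Iic_le (α : K) : #(Iic α) ≤ ℵ_ Ordinal.omega0 := by
  have h : (Iic α : Set K) = Iio α ∪ {α} := by
    ext x
    simp [le_iff_lt_or_eq, or_comm]
  rw [h]
  refine (mk_union_le _ _).trans ?_
  refine add_le_of_le (aleph0_le_aleph _) (mk_Iio_le α) ?_
  rw [mk_singleton]
  exact one_le_aleph0.trans (aleph0_le_aleph _)

theorem mk_K : #K = ℵ_ (Ordinal.omega0 + 1) := mk_ord_toType _

/-- a set of cardinality `κ` is not contained in a countable union of initial segments -/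
theorem exists_gt (X : Set K) (hX : #X = #K) (b : ℕ → K) : ∃ y ∈ X, ∀ n, b n < y := by
  by_contra hcon
  push Not at hcon
  have h1 : X ⊆ ⋃ n, Iic (b n) := fun y hy => by
    obtain ⟨n, hn⟩ := hcon y hy
    exact mem_iUnion.2 ⟨n, hn⟩
  have h2 : #(⋃ n, Iic (b n) : Set K) ≤ ℵ_ Ordinal.omega0 := by
    refine (mk_iUnion_le _).trans ?_
    refine mul_le_of_le (aleph0_le_aleph _) ?_ ?_
    · rw [mk_nat]
      exact aleph0_le_aleph _
    · exact ciSup_le' fun n => mk_Iic_le _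
  have h3 : #K ≤ ℵ_ Ordinal.omega0 := by
    rw [← hX]
    exact (mk_le_mk_of_subset h1).trans h2
  rw [mk_K, ← succ_aleph] at h3
  exact absurd h3 (not_le.2 (Order.lt_succ _))

theorem aleph_nat_le {m n : ℕ} (h : m ≤ n) : ℵ_ (m : Ordinal.{0}) ≤ ℵ_ (n : Ordinal.{0}) :=
  aleph_le_aleph.2 (by exact_mod_cast h)

theorem aleph_nat_lt {m n : ℕ} (h : m < n) : ℵ_ (m : Ordinal.{0}) < ℵ_ (n : Ordinal.{0}) :=
  aleph_lt_aleph.2 (by exact_mod_cast h)

theorem aleph_nat_lt_omega (m : ℕ) : ℵ_ (m : Ordinal.{0}) < ℵ_ Ordinal.omega0 :=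
  aleph_lt_aleph.2 (Ordinal.natCast_lt_omega0 m)

/-- decomposition of a set of cardinality at most `ℵ_ω` -/
theorem exists_decomp {α : Type} (s : Set α) (hs : #s ≤ ℵ_ Ordinal.omega0) :
    ∃ E : ℕ → Set α, (∀ m, E m ⊆ s) ∧ (∀ m n, m ≤ n → E m ⊆ E n) ∧ (∀ x ∈ s, ∃ m, x ∈ E m) ∧
      ∀ m, #(E m) ≤ ℵ_ (m : Ordinal.{0}) := by
  classical
  have h1 : ℵ_ (Ordinal.omega0 : Ordinal.{0}) ≤ #(Σ n : ℕ, (ℵ_ (n : Ordinal.{0})).out) := by
    rw [aleph_limit Ordinal.isSuccLimit_omega0]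
    refine ciSup_le' ?_
    rintro ⟨a, ha⟩
    obtain ⟨n, rfl⟩ := Ordinal.lt_omega0.1 ha
    have : #((ℵ_ (n : Ordinal.{0})).out) ≤ #(Σ n : ℕ, (ℵ_ (n : Ordinal.{0})).out) :=
      mk_le_of_injective (f := fun x => (⟨n, x⟩ : Σ n : ℕ, (ℵ_ (n : Ordinal.{0})).out))
        (fun x y h => by simpa using h)
    rwa [mk_out] at this
  obtain ⟨e⟩ := (le_def _ _).1 (hs.trans h1)
  refine ⟨fun m => {x | ∃ h : x ∈ s, (e ⟨x, h⟩).1 ≤ m}, fun m x hx => hx.1,
    fun m n hmn x ⟨hx, h⟩ => ⟨hx, h.trans hmn⟩, fun x hx => ⟨(e ⟨x, hx⟩).1, hx, le_rfl⟩, fun m => ?_⟩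
  have h2 : #{x | ∃ h : x ∈ s, (e ⟨x, h⟩).1 ≤ m} ≤
      #(Σ n : Fin (m + 1), (ℵ_ ((n : ℕ) : Ordinal.{0})).out) := by
    refine mk_le_of_injective (f := fun x => ⟨⟨(e ⟨x.1, x.2.1⟩).1, Nat.lt_succ_of_le x.2.2⟩,
      (e ⟨x.1, x.2.1⟩).2⟩) ?_
    rintro ⟨x, hx, hx'⟩ ⟨y, hy, hy'⟩ h
    have h' : e ⟨x, hx⟩ = e ⟨y, hy⟩ := by
      have h3 := congrArg (fun p : (Σ n : Fin (m + 1), (ℵ_ ((n : ℕ) : Ordinal.{0})).out) =>
        (⟨p.1.1, p.2⟩ : Σ n : ℕ, (ℵ_ (n : Ordinal.{0})).out)) h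
      simpa using h3
    have := e.injective h'
    simpa using this
  refine h2.trans ?_
  rw [mk_sigma]
  refine (sum_le_mk_mul_iSup _).trans ?_
  refine mul_le_of_le (aleph0_le_aleph _) ?_ ?_
  · exact (mk_le_aleph0 (α := Fin (m + 1))).trans (aleph0_le_aleph _)
  · refine ciSup_le' fun n => ?_
    rw [mk_out]
    exact aleph_nat_le (Nat.lt_succ_iff.1 n.2)

/-- the requirements for the sets `F m` in the step `α` of the recursion -/
def Step (A : ℕ → K → Set K) (T : K → ℕ → K) (E : K → ℕ → Set K) (α : K) (g : K → Set K)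
    (F : ℕ → Set K) : Prop :=
  (∀ m, F m ⊆ Iio α) ∧ (∀ m : ℕ, #(F m) ≤ ℵ_ (m : Ordinal.{0})) ∧
  (∀ m, ∀ γ ∈ E α m, ∀ x ∈ F m, x ∉ g γ) ∧
  (∀ m, ∀ k, 1 ≤ k → ∀ δ, S k δ → ¬ Cof δ (F m ∩ A k δ)) ∧
  ∀ m, ∀ β ∈ E α m, S (m + 2) (T β (m + 2)) → T β (m + 2) ≤ α →
    Cof (T β (m + 2)) (A (m + 2) (T β (m + 2)) \ ⋃ γ ∈ E α m, g γ) →
      ∃ x ∈ F m, x ∈ A (m + 2) (T β (m + 2))

theorem exists_step (h : S_CL) (A : ℕ → K → Set K) (T : K → ℕ → K)
    (hA : ∀ k δ, S k δ → #(A k δ) ≤ ℵ_ (k : Ordinal.{0})) (E : K → ℕ → Set K)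
    (hE : ∀ α m, #(E α m) ≤ ℵ_ (m : Ordinal.{0})) (α : K) (g : K → Set K) :
    ∃ F : ℕ → Set K, Step A T E α g F := by
  have key : ∀ m : ℕ, ∃ F : Set K, F ⊆ Iio α ∧ #F ≤ ℵ_ (m : Ordinal.{0}) ∧
      (∀ γ ∈ E α m, ∀ x ∈ F, x ∉ g γ) ∧ (∀ k, 1 ≤ k → ∀ δ, S k δ → ¬ Cof δ (F ∩ A k δ)) ∧
      ∀ β ∈ E α m, S (m + 2) (T β (m + 2)) → T β (m + 2) ≤ α →
        Cof (T β (m + 2)) (A (m + 2) (T β (m + 2)) \ ⋃ γ ∈ E α m, g γ) →
          ∃ x ∈ F, x ∈ A (m + 2) (T β (m + 2)) := by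
    intro m
    let ι : Type := {β : K // β ∈ E α m ∧ S (m + 2) (T β (m + 2)) ∧ T β (m + 2) ≤ α ∧
      Cof (T β (m + 2)) (A (m + 2) (T β (m + 2)) \ ⋃ γ ∈ E α m, g γ)}
    have hι : #ι ≤ ℵ_ (m : Ordinal.{0}) := by
      refine le_trans ?_ (hE α m)
      exact mk_le_of_injective (f := fun β : ι => (⟨β.1, β.2.1⟩ : E α m))
        (fun x y hxy => Subtype.ext (by simpa using hxy))
    obtain ⟨x, hx, hx'⟩ := h m ι hι (fun β => T β.1 (m + 2))
      (fun β => A (m + 2) (T β.1 (m + 2)) \ ⋃ γ ∈ E α m, g γ) A (fun β => β.2.2.1)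
      (fun β => β.2.2.2.2) hA
    refine ⟨range x, ?_, ?_, ?_, hx', ?_⟩
    · rintro _ ⟨β, rfl⟩
      exact lt_of_lt_of_le (hx β).2 β.2.2.2.1
    · exact (mk_range_le).trans hι
    · rintro γ hγ _ ⟨β, rfl⟩ hmem
      exact (hx β).1.2 (mem_biUnion hγ hmem)
    · intro β h1 h2 h3 h4
      exact ⟨x ⟨β, h1, h2, h3, h4⟩, ⟨_, rfl⟩, (hx ⟨β, h1, h2, h3, h4⟩).1.1⟩
  choose F hF using key
  exact ⟨F, fun m => (hF m).1, fun m => (hF m).2.1, fun m => (hF m).2.2.1,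
    fun m => (hF m).2.2.2.1, fun m => (hF m).2.2.2.2⟩

/-- the recursion -/
theorem exists_rec (P : K → (K → Set K) → (ℕ → Set K) → Prop)
    (hP : ∀ α g, ∃ F, P α g F) :
    ∃ F : K → ℕ → Set K, ∀ α, P α (fun γ => {x | γ < α ∧ ∃ m, x ∈ F γ m}) (F α) := by
  classical
  choose Φ hΦ using hP
  let Fr : K → ℕ → Set K := WellFounded.fix (wellFounded_lt (α := K))
    (fun α r => Φ α (fun γ => {x | ∃ h : γ < α, ∃ m, x ∈ r γ h m}))
  refine ⟨Fr, fun α => ?_⟩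
  have h1 : Fr α = Φ α (fun γ => {x | ∃ _ : γ < α, ∃ m, x ∈ Fr γ m}) := by
    exact WellFounded.fix_eq _ _ _
  have h2 : (fun γ => {x | ∃ _ : γ < α, ∃ m, x ∈ Fr γ m}) =
      fun γ => {x | γ < α ∧ ∃ m, x ∈ Fr γ m} := by
    funext γ
    ext x
    simp
  rw [h1, h2]
  exact hΦ _ _

theorem t_CON (h : S_CL) : S_CON := by
  classical
  intro A T hT hA hX
  have hdec := fun α : K => exists_decomp (Iio α) (mk_Iio_le α)
  choose E hE1 hE2 hE3 hE4 using hdec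
  obtain ⟨F, hF⟩ := exists_rec (Step A T E) (exists_step h A T hA E hE4)
  have hsub : ∀ α m, F α m ⊆ Iio α := fun α => (hF α).1
  -- the sets `f α ∩ A k δ` are bounded
  have hbd : ∀ α k, 1 ≤ k → ∀ δ, S k δ → ¬ Cof δ ((⋃ m, F α m) ∩ A k δ) := by
    intro α k hk δ hδ hcof
    have h1 : ∀ m, ∃ b < δ, ∀ a ∈ F α m ∩ A k δ, b < a → ¬ a < δ := by
      intro m
      have h2 := (hF α).2.2.2.1 m k hk δ hδ
      unfold Cof at h2
      push Not at h2
      obtain ⟨b, hb, h3⟩ := h2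
      exact ⟨b, hb, fun a ha hba => not_lt.2 (h3 a ha hba)⟩
    choose b hb1 hb2 using h1
    have h3 : ¬ Cof δ (range b) := by
      refine hδ.1 _ (lt_of_le_of_lt mk_range_le ?_)
      rw [mk_nat, ← aleph_zero]
      have := aleph_nat_lt (m := 0) (n := k) (by omega)
      simpa using this
    apply h3
    intro c hc
    obtain ⟨a, ⟨ha1, ha2⟩, hca, haδ⟩ := hcof c hc
    obtain ⟨m, hm⟩ := mem_iUnion.1 ha1
    by_contra hcon
    push Not at hcon
    have h4 : b m ≤ c := by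
      by_contra h5
      exact absurd (hcon (b m) ⟨m, rfl⟩ (not_le.1 h5)) (not_le.2 (hb1 m))
    exact hb2 m a ⟨hm, ha2⟩ (lt_of_le_of_lt h4 hca) haδ
  refine ⟨fun α => ⋃ m, F α m, fun α => iUnion_subset (hsub α), fun α => ?_, ?_, ?_⟩
  · exact (mk_le_mk_of_subset (iUnion_subset (hsub α))).trans (mk_Iio_le α)
  · -- almost disjointness
    have hfin : ∀ α d, #(⋃ m ∈ Finset.range d, F α m : Set K) < ℵ_ Ordinal.omega0 := by
      intro α d
      induction d with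
      | zero =>
        simp only [Finset.range_zero, Finset.notMem_empty, iUnion_of_empty, iUnion_empty, mk_eq_zero]
        exact aleph_pos _
      | succ d ih =>
        have h1 : (⋃ m ∈ Finset.range (d + 1), F α m : Set K) ⊆
            (⋃ m ∈ Finset.range d, F α m) ∪ F α d := by
          intro x hx
          simp only [mem_iUnion, Finset.mem_range, exists_prop] at hx
          obtain ⟨m, hm, hx⟩ := hx
          rcases Nat.lt_succ_iff_lt_or_eq.1 hm with h2 | rfl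
          · left
            simp only [mem_iUnion, Finset.mem_range, exists_prop]
            exact ⟨m, h2, hx⟩
          · exact Or.inr hx
        refine lt_of_le_of_lt (mk_le_mk_of_subset h1) (lt_of_le_of_lt (mk_union_le _ _) ?_)
        exact add_lt_of_lt (aleph0_le_aleph _) ih
          (lt_of_le_of_lt ((hF α).2.1 d) (aleph_nat_lt_omega d))
    have hlt : ∀ α γ, γ < α →
        #((⋃ m, F α m) ∩ (⋃ m, F γ m) : Set K) < ℵ_ Ordinal.omega0 := by
      intro α γ hγ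
      obtain ⟨d, hd⟩ := hE3 α γ hγ
      refine lt_of_le_of_lt (mk_le_mk_of_subset ?_) (hfin α d)
      rintro x ⟨hx1, hx2⟩
      obtain ⟨m, hm⟩ := mem_iUnion.1 hx1
      obtain ⟨m', hm'⟩ := mem_iUnion.1 hx2
      simp only [mem_iUnion, Finset.mem_range, exists_prop]
      refine ⟨m, ?_, hm⟩
      by_contra hmd
      exact (hF α).2.2.1 m γ (hE2 α d m (by omega) hd) x hm ⟨hγ, m', hm'⟩
    intro α β hαβ
    rcases lt_or_gt_of_ne hαβ with h1 | h1
    · rw [inter_comm]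
      exact hlt β α h1
    · exact hlt α β h1
  · -- no large free set
    intro X hXc
    have h1 : ∀ k, ∃ δ, 1 ≤ k → S k δ ∧ A k δ ⊆ X ∧ Cof δ (A k δ) := by
      intro k
      by_cases hk : 1 ≤ k
      · obtain ⟨δ, hδ⟩ := hX k hk X hXc
        exact ⟨δ, fun _ => hδ⟩
      · have : Nonempty K := by
          rw [← mk_ne_zero_iff, mk_K]
          exact (aleph_pos _).ne'
        exact ⟨Classical.arbitrary K, fun h => absurd h hk⟩
    choose δ hδ using h1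
    obtain ⟨β, hβ⟩ := hT δ
    obtain ⟨y, hyX, hy⟩ := exists_gt X hXc (fun n => Nat.casesOn n β δ)
    have hyβ : β < y := hy 0
    have hyδ : ∀ k, δ k < y := fun k => hy (k + 1)
    obtain ⟨m, hm⟩ := hE3 y β hyβ
    have hσ := hδ (m + 2) (by omega)
    have hstep := (hF y).2.2.2.2 m β hm (by rw [hβ]; exact hσ.1) (by rw [hβ]; exact (hyδ _).le)
      (by
        rw [hβ]
        by_contra hcon
        unfold Cof at hcon
        push Not at hcon
        obtain ⟨b, hb, hb'⟩ := hcon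
        -- bounds for `f γ ∩ A (m + 2) σ`
        have h2 : ∀ γ, ∃ c < δ (m + 2), ∀ a ∈ (⋃ m, F γ m) ∩ A (m + 2) (δ (m + 2)), c < a →
            ¬ a < δ (m + 2) := by
          intro γ
          have h3 := hbd γ (m + 2) (by omega) _ hσ.1
          unfold Cof at h3
          push Not at h3
          obtain ⟨c, hc, h4⟩ := h3
          exact ⟨c, hc, fun a ha hca => not_lt.2 (h4 a ha hca)⟩
        choose c hc1 hc2 using h2
        have h3 : ¬ Cof (δ (m + 2)) (c '' (E y m)) := by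
          refine hσ.1.1 _ (lt_of_le_of_lt mk_image_le (lt_of_le_of_lt (hE4 y m) ?_))
          exact_mod_cast aleph_nat_lt (m := m) (n := m + 2) (by omega)
        apply h3
        intro c' hc'
        obtain ⟨a, ha1, ha2, ha3⟩ := hσ.2.2 (max b c') (max_lt hb hc')
        have h4 : a ∈ ⋃ γ ∈ E y m, {x | γ < y ∧ ∃ m, x ∈ F γ m} := by
          by_contra h5
          exact absurd (hb' a ⟨ha1, h5⟩ (lt_of_le_of_lt (le_max_left _ _) ha2)) (not_le.2 ha3)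
        simp only [mem_iUnion, exists_prop, mem_ofPred_eq] at h4
        obtain ⟨γ, hγ, hγy, m', hm'⟩ := h4
        refine ⟨c γ, ⟨γ, hγ, rfl⟩, ?_, hc1 γ⟩
        by_contra h6
        exact hc2 γ a ⟨mem_iUnion.2 ⟨m', hm'⟩, ha1⟩
          (lt_of_le_of_lt (not_lt.1 h6) (lt_of_le_of_lt (le_max_right _ _) ha2)) ha3)
    obtain ⟨x, hx1, hx2⟩ := hstep
    rw [hβ] at hx2
    exact ⟨x, hσ.2.1 hx2, y, hyX, (hsub y m hx1).ne, mem_iUnion.2 ⟨m, hx1⟩⟩

end Pool.Agent.V5helper12.FS
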